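import Pool.Agent.W707.HM.Stm

/-! Project HM (MP_515557_an), part QT: the condition from the lines `diag(1,t) + ε e₁ ⊗ e₂`. -/

set_option autoImplicit false

namespace Pool.Agent.W377.HM.QT

open MeasureTheory Set Filter Topology
open Pool.Agent.W360.MQ (cab RankOneConvex)
open Pool.Agent.W707.HM

theorem rank_dg (s : ℝ) (hs : s ≠ 0) : (Matrix.diagonal ![s, 0] : Matrix (Fin 2) (Fin 2) ℝ).rank = 1 := by
  rw [Matrix.rank_diagonal, Fintype.card_eq_one_iff]
  refine ⟨⟨0, by simpa using hs⟩, ?_⟩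
  rintro ⟨y, hy⟩
  fin_cases y
  · rfl
  · exact absurd rfl hy

theorem rank_e12 (c : ℝ) (hc : c ≠ 0) : (!![0, c; 0, 0] : Matrix (Fin 2) (Fin 2) ℝ).rank = 1 := by
  have h1 : (!![0, c; 0, 0] : Matrix (Fin 2) (Fin 2) ℝ) = Matrix.vecMulVec ![1, 0] ![0, c] := by
    ext i j
    fin_cases i <;> fin_cases j <;> simp [Matrix.vecMulVec]
  apply le_antisymm
  · rw [h1]
    exact Matrix.rank_vecMulVec_le _ _
  · have h2 : (!![0, c; 0, 0] : Matrix (Fin 2) (Fin 2) ℝ) * !![0, 1; 1, 0] = Matrix.diagonal ![c, 0] := by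
      ext i j
      fin_cases i <;> fin_cases j <;> simp [Matrix.mul_apply]
    have h3 := Matrix.rank_mul_le_left (!![0, c; 0, 0] : Matrix (Fin 2) (Fin 2) ℝ) !![0, 1; 1, 0]
    rw [h2, rank_dg c hc] at h3
    exact h3

theorem norm_div_two (a b : ℝ) : ‖((a : ℂ) + (b : ℂ) * Complex.I) / 2‖ = √(a ^ 2 + b ^ 2) / 2 := by
  rw [norm_div, Complex.norm_add_mul_I]
  norm_num

/-- the value of `W` on the line -/
theorem val (p : ℝ) (f : ℝ → ℝ) (t S e : ℝ) (hS : 1 ≤ S) (ht : |t| ≤ 1)
    (he : S ^ 2 + (t / S) ^ 2 = 1 + t ^ 2 + e ^ 2) :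
    Wm p f !![1, e; 0, t] = S ^ p * f (t / S ^ 2) := by
  have hS0 : 0 < S := by linarith
  have ht' := abs_le.1 ht
  have hSt : S * (t / S) = t := by field_simp
  have h3 : |t / S| ≤ 1 := by
    rw [abs_div, abs_of_pos hS0]
    rw [div_le_one hS0]
    linarith
  have h3' := abs_le.1 h3
  have hn1 : ‖(cab !![1, e; 0, t]).1‖ = (S + t / S) / 2 := by
    simp only [cab, Matrix.of_apply, Matrix.cons_val', Matrix.cons_val_zero, Matrix.cons_val_one,
      Matrix.cons_val_fin_one]
    rw [norm_div_two]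
    congr 1
    rw [show (1 + t) ^ 2 + (0 - e) ^ 2 = (S + t / S) ^ 2 by linear_combination (-1 : ℝ) * he - 2 * hSt]
    exact Real.sqrt_sq (by linarith)
  have hn2 : ‖(cab !![1, e; 0, t]).2‖ = (S - t / S) / 2 := by
    simp only [cab, Matrix.of_apply, Matrix.cons_val', Matrix.cons_val_zero, Matrix.cons_val_one,
      Matrix.cons_val_fin_one]
    rw [norm_div_two]
    congr 1
    rw [show (1 - t) ^ 2 + (0 + e) ^ 2 = (S - t / S) ^ 2 by linear_combination (-1 : ℝ) * he + 2 * hSt]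
    exact Real.sqrt_sq (by linarith)
  unfold Wm wh
  rw [hn1, hn2]
  have h4 : (S + t / S) / 2 + (S - t / S) / 2 = S := by ring
  have h5 : (S + t / S) / 2 - (S - t / S) / 2 = t / S := by ring
  rw [h4, h5]
  congr 2
  field_simp

theorem q3 (p : ℝ) (f : ℝ → ℝ) (hW : RankOneConvex (Wm p f)) (t S : ℝ) (hS : 1 ≤ S) (ht : |t| ≤ 1) :
    f t ≤ S ^ p * f (t / S ^ 2) := by
  have hS0 : 0 < S := by linarith
  have hS2 : 1 ≤ S ^ 2 := one_le_pow₀ hS
  have ht2 : t ^ 2 ≤ 1 := (sq_le_one_iff_abs_le_one t).2 ht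
  have hnn : 0 ≤ S ^ 2 + (t / S) ^ 2 - (1 + t ^ 2) := by
    have h1 : S ^ 2 + (t / S) ^ 2 - (1 + t ^ 2) = (S ^ 2 - 1) * (S ^ 2 - t ^ 2) / S ^ 2 := by
      field_simp
      ring
    rw [h1]
    apply div_nonneg _ (sq_nonneg _)
    exact mul_nonneg (by linarith) (by linarith)
  obtain ⟨e, hedef⟩ : ∃ e, e = √(S ^ 2 + (t / S) ^ 2 - (1 + t ^ 2)) := ⟨_, rfl⟩
  have he : S ^ 2 + (t / S) ^ 2 = 1 + t ^ 2 + e ^ 2 := by
    rw [hedef, Real.sq_sqrt hnn]
    ring
  have he' : S ^ 2 + (t / S) ^ 2 = 1 + t ^ 2 + (-e) ^ 2 := by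
    rw [neg_sq]; exact he
  have h0 : Wm p f !![1, 0; 0, t] = f t := by
    have := val p f t 1 0 le_rfl ht (by ring)
    rw [this]
    simp
  have h1 := val p f t S e hS ht he
  have h2 := val p f t S (-e) hS ht he'
  by_cases hz : e = 0
  · rw [hz, h0] at h1
    exact h1.le
  · have h3 := hW !![1, -e; 0, t] !![0, 2 * e; 0, 0] (rank_e12 _ (by simpa using hz)) (1 / 2)
      (by norm_num) (by norm_num)
    have e1 : (!![1, -e; 0, t] : Matrix (Fin 2) (Fin 2) ℝ) + !![0, 2 * e; 0, 0] = !![1, e; 0, t] := by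
      ext i j
      fin_cases i <;> fin_cases j <;> simp
      ring
    have e2 : ((1 : ℝ) - 1 / 2) • (!![1, -e; 0, t] : Matrix (Fin 2) (Fin 2) ℝ) +
        (1 / 2 : ℝ) • !![1, e; 0, t] = !![1, 0; 0, t] := by
      ext i j
      fin_cases i <;> fin_cases j <;> simp <;> ring
    rw [e1, e2, h0, h1, h2] at h3
    linarith

theorem main : S_QT := by
  intro p f hp hW t m ht1 ht2 hSG
  have hq := q3 p f hW
  obtain ⟨htI, hsup⟩ := hSG
  -- derivative of the difference
  have hder : ∀ (h0 : t ≠ 0), HasDerivAt (fun x => (x / t) ^ (p / 2) * f t - f t - m * (x - t))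
      (p / 2 / t * f t - m) t := by
    intro h0
    have h1 : HasDerivAt (fun x => x / t) (1 / t) t := (hasDerivAt_id t).div_const t
    have h2 : HasDerivAt (fun x => (x / t) ^ (p / 2)) (1 / t * (p / 2) * (t / t) ^ (p / 2 - 1)) t :=
      h1.rpow_const (Or.inl (by rw [div_self h0]; exact one_ne_zero))
    have h3 := ((h2.mul_const (f t)).sub_const (f t)).sub (((hasDerivAt_id t).sub_const t).const_mul m)
    refine h3.congr_deriv ?_
    rw [div_self h0, Real.one_rpow]
    ring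
  -- the inequality
  have hineq : ∀ x, |x| ≤ 1 → 1 ≤ x / t → t ≠ 0 →
      0 ≤ (x / t) ^ (p / 2) * f t - f t - m * (x - t) := by
    intro x hx hxt h0
    have hS : 1 ≤ √(x / t) := by
      rw [show (1 : ℝ) = √1 by simp]
      exact Real.sqrt_le_sqrt hxt
    have h1 := hq x (√(x / t)) hS hx
    rw [Real.sq_sqrt (by linarith), Real.sqrt_eq_rpow, ← Real.rpow_mul (by linarith)] at h1
    have hx0 : x ≠ 0 := by
      rintro rfl
      rw [zero_div] at hxt
      linarith
    have h2 : x / (x / t) = t := by field_simp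
    rw [h2, show 1 / 2 * p = p / 2 by ring] at h1
    have h3 := hsup x (abs_le.1 hx)
    linarith
  rcases lt_trichotomy t 0 with ht | ht | ht
  · have hd := hder ht.ne
    rw [hasDerivAt_iff_tendsto_slope] at hd
    have hd' := hd.mono_left (nhdsLT_le_nhdsNE t)
    have h1 : p / 2 / t * f t - m ≤ 0 := by
      refine le_of_tendsto hd' ?_
      filter_upwards [Ioo_mem_nhdsLT ht1] with x hx
      have h2 := hineq x (abs_le.2 ⟨hx.1.le, by linarith [hx.2]⟩) (by
        rw [one_le_div_of_neg ht]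
        exact hx.2.le) ht.ne
      rw [slope_def_field]
      have h3 : (t / t) ^ (p / 2) * f t - f t - m * (t - t) = 0 := by
        rw [div_self ht.ne, Real.one_rpow]
        ring
      rw [h3, sub_zero]
      exact div_nonpos_of_nonneg_of_nonpos h2 (by linarith [hx.2])
    have h2 : t * (p / 2 / t * f t - m) ≥ 0 := mul_nonneg_of_nonpos_of_nonpos ht.le h1
    have h3 : t * (p / 2 / t * f t - m) = p / 2 * f t - t * m := by
      have h0 : t ≠ 0 := ht.ne
      field_simp
    linarith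
  · rw [ht]
    have h1 := hq 0 2 (by norm_num) (by simp)
    rw [zero_div] at h1
    have h2 : (2 : ℝ) ^ (1 : ℝ) ≤ 2 ^ p := Real.rpow_le_rpow_of_exponent_le (by norm_num) hp
    rw [Real.rpow_one] at h2
    have h3 : 0 ≤ f 0 := by
      by_contra hneg
      push Not at hneg
      nlinarith
    have : 0 ≤ p * f 0 := mul_nonneg (by linarith) h3
    linarith
  · have hd := hder ht.ne'
    rw [hasDerivAt_iff_tendsto_slope] at hd
    have hd' := hd.mono_left (nhdsGT_le_nhdsNE t)
    have h1 : 0 ≤ p / 2 / t * f t - m := by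
      refine ge_of_tendsto hd' ?_
      filter_upwards [Ioo_mem_nhdsGT ht2] with x hx
      have h2 := hineq x (abs_le.2 ⟨by linarith [hx.1], hx.2.le⟩) (by
        rw [one_le_div ht]
        exact hx.1.le) ht.ne'
      rw [slope_def_field]
      have h3 : (t / t) ^ (p / 2) * f t - f t - m * (t - t) = 0 := by
        rw [div_self ht.ne', Real.one_rpow]
        ring
      rw [h3, sub_zero]
      exact div_nonneg h2 (by linarith [hx.1])
    have h2 : t * (p / 2 / t * f t - m) ≥ 0 := mul_nonneg ht.le h1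
    have h3 : t * (p / 2 / t * f t - m) = p / 2 * f t - t * m := by
      field_simp
    linarith

end Pool.Agent.W377.HM.QT
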